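import Pool.Agent.H23.LC.Targets
import Pool.Agent.H25.HK.Targets
import Pool.Agent.H27.TM.TargetsA
import Pool.Agent.H29.DW.Targets
import Pool.Agent.H29.DW.Tools
import Pool.Agent.H29.TC.Targets

/-! Board tm12_modules, module LT: the twelfth moment of a class (model H31/SWL/SW). -/

set_option autoImplicit false
set_option linter.unusedVariables false
set_option linter.unusedSectionVars false

open NumberField NumberField.InfinitePlace NumberField.Units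
  NumberField.Units.dirichletUnitTheorem MeasureTheory Set Filter Complex
open scoped nonZeroDivisors ENNReal

namespace Pool.Agent.H19.TMB.LT

open Pool.Agent.H25.HK Pool.Agent.H23.LB Pool.Agent.H23.LC Pool.Agent.H27.TM
open Pool.Agent.H31.SW (PP dK)
open Pool.Agent.H29.DW (cpar Ci Wt one_le_Ci V_AE V_GH)

section

variable {K : Type} [Field K] [NumberField K]

private theorem one_le_Nf {f : Ideal (𝓞 K)} (hf : f ≠ ⊥) : 1 ≤ Nf K f := by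
  unfold Nf
  have h : Ideal.absNorm f ≠ 0 := fun h => hf (Ideal.absNorm_eq_zero_iff.1 h)
  exact_mod_cast Nat.one_le_iff_ne_zero.2 h

private theorem one_le_discr : 1 ≤ |(discr K : ℝ)| := by
  have h : (1 : ℤ) ≤ |discr K| := Int.one_le_abs (discr_ne_zero K)
  have h2 : ((1 : ℤ) : ℝ) ≤ ((|discr K| : ℤ) : ℝ) := by exact_mod_cast h
  simpa using h2

private theorem norm_psi_le {f : Ideal (𝓞 K)} (χ : HG K f) (J : Ideal (𝓞 K)) : ‖χ.ψ J‖ ≤ 1 := by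
  by_cases h1 : J = ⊥
  · rw [h1, χ.map_bot, norm_zero]
    exact zero_le_one
  · by_cases h2 : J ⊔ f = ⊤
    · exact (χ.norm_one J h1 h2).le
    · rw [χ.eq_zero J h2, norm_zero]
      exact zero_le_one

private theorem gf_diff (hGE : U_GE) {f : Ideal (𝓞 K)} (hf : f ≠ ⊥) (χ : HG K f) (s : ℂ)
    (hs : 0 < s.re) : DifferentiableAt ℂ (gf χ) s := by
  have h1 := (hGE K χ.k (-χ.ν) χ.real_k).2.1 s hs
  have h2 := (hGE K χ.k χ.ν χ.real_k).1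
  have h3 : DifferentiableAt ℂ (fun s => (gG K χ.k χ.ν (1 - s))⁻¹) s :=
    (h2 (1 - s)).comp s (by fun_prop)
  have h4 : DifferentiableAt ℂ
      (fun s : ℂ => (((|(discr K : ℝ)| * Nf K f : ℝ) : ℂ)) ^ (s - 1 / 2)) s := by
    refine DifferentiableAt.const_cpow (by fun_prop) (Or.inl ?_)
    have h5 := one_le_Nf hf
    have h6 := one_le_discr (K := K)
    exact_mod_cast (by positivity : |(discr K : ℝ)| * Nf K f ≠ 0)
  have h5 : gf χ = fun s => (-I) ^ dk K χ.k *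
      (((|(discr K : ℝ)| * Nf K f : ℝ) : ℂ)) ^ (s - 1 / 2) *
        (gG K χ.k (-χ.ν) s * (gG K χ.k χ.ν (1 - s))⁻¹) := by
    funext s
    rfl
  rw [h5]
  exact ((differentiableAt_const _).mul h4).mul (h1.2.mul h3)

/-- the approximate functional equation -/
theorem split (n : ℕ) (κ C₀ C₃ : ℝ) (hC₀ : 0 ≤ C₀) (hκ0 : 0 < κ) (hκ1 : κ ≤ 1)
    (hA : ∀ κ : ℝ, 0 < κ → κ ≤ 1 → ∀ (ι : Type) (L E G : ℂ → ℂ)
    (a a' : ι → ℂ) (N : ι → ℝ) (X t B : ℝ), 0 < X → 1 ≤ B → (∀ i, 1 ≤ N i) →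
    (∀ σ : ℝ, 1 < σ → Summable (fun i => N i ^ (-σ))) → (∃ A : ℝ, ∀ i, ‖a i‖ ≤ A ∧ ‖a' i‖ ≤ A) →
    Differentiable ℂ E → (∀ s : ℂ, s ≠ 0 → s ≠ 1 → E s = s * (s - 1) * L s) →
    (∃ C A : ℝ, ∀ s : ℂ, |s.re| ≤ 3 → ‖E s‖ ≤ C * Real.exp (A * |s.im|)) →
    (∀ s : ℂ, 1 < s.re → L s = ∑' i, a i * (N i : ℂ) ^ (-s)) →
    (∀ s : ℂ, 1 < s.re → L (1 - s) = G s * ∑' i, a' i * (N i : ℂ) ^ (-s)) →
    (∀ s : ℂ, 0 < s.re → DifferentiableAt ℂ G s) →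
    (∀ s : ℂ, 1 / 2 ≤ s.re → s.re ≤ 3 / 2 → ‖G s‖ ≤
      B * X ^ (2 * (s.re - 1 / 2)) * (1 + |s.im + t|) ^ n) →
    ∃ v v' : ℝ → ℂ, Wt κ X (C₀ * κ⁻¹ * B) v ∧ Wt κ X (C₀ * κ⁻¹ * B) v' ∧
      L (1 / 2 + t * I) = ∑' i, a i * v (N i) * (N i : ℂ) ^ (-(t * I : ℂ)) +
        ∑' i, a' i * v' (N i) * (N i : ℂ) ^ (t * I : ℂ))
    (hG : ∀ (K : Type) [Field K] [NumberField K],
      Module.finrank ℚ K = n → ∀ (k : InfinitePlace K → ℤ) (ν : InfinitePlace K → ℝ) (t : ℝ),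
      (∀ v : InfinitePlace K, v.IsReal → k v = 0 ∨ k v = 1) → ∀ s : ℂ, 1 / 2 ≤ s.re →
      s.re ≤ 3 / 2 → ‖gG K k (-ν) s * (gG K k ν (1 - s))⁻¹‖ ≤
        C₃ * Ci k ν t ^ (s.re - 1 / 2) * (1 + |s.im + t|) ^ n)
    (hDS : T_DS) (hDC : U_DC) (hGE : U_GE) (hn : Module.finrank ℚ K = n) {f : Ideal (𝓞 K)}
    (hf0 : f ≠ ⊥) (D : Sys K f) (χ : HG K f) (L : ℂ → ℂ) (hIL : IsL D χ L) (t : ℝ) :
    ∃ v v' : ℝ → ℂ,
      Wt κ (Real.sqrt (|(discr K : ℝ)| * Nf K f * Ci χ.k χ.ν t)) (C₀ * κ⁻¹ * max 1 C₃) v ∧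
      Wt κ (Real.sqrt (|(discr K : ℝ)| * Nf K f * Ci χ.k χ.ν t)) (C₀ * κ⁻¹ * max 1 C₃) v' ∧
      L (1 / 2 + t * I) =
        ∑' J : NZI K, χ.ψ J.1 * v (Ideal.absNorm J.1) *
          (Ideal.absNorm J.1 : ℂ) ^ (-(t * I : ℂ)) +
        ∑' J : NZI K, cd D χ J.1 * v' (Ideal.absNorm J.1) *
          (Ideal.absNorm J.1 : ℂ) ^ (t * I : ℂ) := by
  obtain ⟨h1, h2, ⟨E, hE1, hE2, hE3⟩, h4⟩ := hIL
  have hd1 := one_le_discr (K := K)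
  have hNf1 := one_le_Nf hf0
  have hCi1 := one_le_Ci χ.k χ.ν t
  set Q : ℝ := |(discr K : ℝ)| * Nf K f * Ci χ.k χ.ν t with hQd
  have hQ1 : 1 ≤ Q := by
    rw [hQd]
    exact one_le_mul_of_one_le_of_one_le (one_le_mul_of_one_le_of_one_le hd1 hNf1) hCi1
  have hQ0 : 0 < Q := by linarith
  set X : ℝ := Real.sqrt Q with hX
  have hX0 : 0 < X := Real.sqrt_pos.2 hQ0
  -- the factor of the functional equation
  have hgf : ∀ s : ℂ, 1 / 2 ≤ s.re → s.re ≤ 3 / 2 → ‖gf χ s‖ ≤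
      max 1 C₃ * X ^ (2 * (s.re - 1 / 2)) * (1 + |s.im + t|) ^ n := by
    intro s hs hs'
    have h5 := hG K hn χ.k χ.ν t χ.real_k s hs hs'
    have hdN : 0 < |(discr K : ℝ)| * Nf K f := by positivity
    unfold gf
    rw [norm_mul, norm_mul, norm_pow, norm_neg, Complex.norm_I, one_pow, one_mul,
      Complex.norm_cpow_eq_rpow_re_of_pos hdN]
    have h6 : (s - 1 / 2 : ℂ).re = s.re - 1 / 2 := by
      rw [Complex.sub_re]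
      norm_num
    rw [h6]
    have h7 : X ^ (2 * (s.re - 1 / 2)) = (|(discr K : ℝ)| * Nf K f) ^ (s.re - 1 / 2) *
        Ci χ.k χ.ν t ^ (s.re - 1 / 2) := by
      rw [hX, Real.sqrt_eq_rpow, ← Real.rpow_mul hQ0.le, hQd,
        ← Real.mul_rpow hdN.le (by linarith)]
      congr 1
      ring
    rw [h7]
    have h8 : C₃ * Ci χ.k χ.ν t ^ (s.re - 1 / 2) * (1 + |s.im + t|) ^ n ≤
        max 1 C₃ * Ci χ.k χ.ν t ^ (s.re - 1 / 2) * (1 + |s.im + t|) ^ n := by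
      gcongr
      exact le_max_right _ _
    calc (|(discr K : ℝ)| * Nf K f) ^ (s.re - 1 / 2) *
          ‖gG K χ.k (-χ.ν) s * (gG K χ.k χ.ν (1 - s))⁻¹‖
        ≤ (|(discr K : ℝ)| * Nf K f) ^ (s.re - 1 / 2) *
          (max 1 C₃ * Ci χ.k χ.ν t ^ (s.re - 1 / 2) * (1 + |s.im + t|) ^ n) :=
          mul_le_mul_of_nonneg_left (h5.trans h8) (by positivity)
      _ = _ := by ring
  obtain ⟨v, v', hv, hv', hL⟩ := hA κ hκ0 hκ1 (NZI K) L E (gf χ) (fun J => χ.ψ J.1)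
    (fun J => cd D χ J.1) (fun J => (Ideal.absNorm J.1 : ℝ)) X t (max 1 C₃) hX0
    (le_max_left _ _)
    (fun J => one_le_Nf J.2)
    (fun σ hσ => by
      have h5 := (hDS K (σ : ℂ) (by simpa using hσ)).1
      refine h5.congr fun J => ?_
      have h6 : (0 : ℝ) < (Ideal.absNorm J.1 : ℝ) := by
        have := one_le_Nf J.2
        unfold Nf at this
        linarith
      have h7 := Complex.norm_cpow_eq_rpow_re_of_pos h6 (-(σ : ℂ))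
      rw [Complex.ofReal_natCast] at h7
      rw [h7]
      simp only [Complex.neg_re, Complex.ofReal_re])
    ⟨max 1 (Real.sqrt (Nf K f)), fun J => ⟨(norm_psi_le χ J.1).trans (le_max_left _ _),
      ((hDC K _ hf0 D χ).1 J.1).trans (le_max_right _ _)⟩⟩
    hE1 hE2 (hE3 3)
    (fun s hs => by
      rw [h1 s hs]
      unfold HG.series
      refine tsum_congr fun J => ?_
      rw [Complex.ofReal_natCast])
    (fun s hs => by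
      rw [h4 s hs]
      unfold serd
      exact congrArg (fun z => gf χ s * z) (tsum_congr fun J => by
        rw [Complex.ofReal_natCast]))
    (fun s hs => gf_diff hGE hf0 χ s hs) hgf
  refine ⟨v, v', hv, hv', ?_⟩
  rw [hL]
  have hS : ∑' J : NZI K, χ.ψ J.1 * v (Ideal.absNorm J.1 : ℝ) *
      (((Ideal.absNorm J.1 : ℝ) : ℂ)) ^ (-(t * I : ℂ)) =
      ∑' J : NZI K, χ.ψ J.1 * v (Ideal.absNorm J.1) *
      (Ideal.absNorm J.1 : ℂ) ^ (-(t * I : ℂ)) :=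
    tsum_congr fun J => by rw [Complex.ofReal_natCast]
  have hS' : ∑' J : NZI K, cd D χ J.1 * v' (Ideal.absNorm J.1 : ℝ) *
      (((Ideal.absNorm J.1 : ℝ) : ℂ)) ^ (t * I : ℂ) =
      ∑' J : NZI K, cd D χ J.1 * v' (Ideal.absNorm J.1) *
      (Ideal.absNorm J.1 : ℂ) ^ (t * I : ℂ) :=
    tsum_congr fun J => by rw [Complex.ofReal_natCast]
  rw [hS, hS']

end

/-- the numbers -/
theorem num {d N h C C₄ C₅ B₀ B₁ B₂ P : ℝ} (hd : 1 ≤ d) (hN : 1 ≤ N) (hh : 0 ≤ h)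
    (hC : 0 ≤ C) (hC₄ : 0 ≤ C₄) (hC₅ : 1 ≤ C₅) (hB₀ : 0 ≤ B₀) (hB₁ : 0 ≤ B₁) (hP : 0 ≤ P)
    (hB₂ : 18 + 4 * B₁ ≤ B₂) (hR : h ≤ C₄ * d ^ (3 / 2 : ℝ)) :
    C * ((B₀ * h) ^ 12 * (C₅ * (d * N) ^ 3 * d * N) ^ B₁ * P) ≤
      C * (B₀ * C₄) ^ 12 * C₅ ^ B₁ * ((d * N) ^ B₂ * P) := by
  have hd0 : 0 < d := by linarith
  have hN0 : 0 < N := by linarith
  have hdN1 : 1 ≤ d * N := one_le_mul_of_one_le_of_one_le hd hN
  have hdN0 : 0 < d * N := by positivity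
  have e1 : (C₅ * (d * N) ^ 3 * d * N) ^ B₁ = C₅ ^ B₁ * (d * N) ^ (4 * B₁) := by
    have : C₅ * (d * N) ^ 3 * d * N = C₅ * (d * N) ^ (4 : ℝ) := by
      have h4 : (d * N) ^ (4 : ℝ) = (d * N) ^ (4 : ℕ) := by
        rw [← Real.rpow_natCast]
        norm_num
      rw [h4]
      ring
    rw [this, Real.mul_rpow (by linarith) (by positivity), ← Real.rpow_mul hdN0.le]
  have e2 : (B₀ * h) ^ 12 ≤ (B₀ * C₄) ^ 12 * (d * N) ^ (18 : ℝ) := by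
    have h1 : B₀ * h ≤ B₀ * (C₄ * (d * N) ^ (3 / 2 : ℝ)) := by
      apply mul_le_mul_of_nonneg_left _ hB₀
      refine hR.trans ?_
      apply mul_le_mul_of_nonneg_left _ hC₄
      apply Real.rpow_le_rpow hd0.le _ (by norm_num)
      exact le_mul_of_one_le_right hd0.le hN
    calc (B₀ * h) ^ 12 ≤ (B₀ * (C₄ * (d * N) ^ (3 / 2 : ℝ))) ^ 12 :=
          pow_le_pow_left₀ (by positivity) h1 12
      _ = (B₀ * C₄) ^ 12 * ((d * N) ^ (3 / 2 : ℝ)) ^ 12 := by ring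
      _ = (B₀ * C₄) ^ 12 * (d * N) ^ (18 : ℝ) := by
          rw [← Real.rpow_natCast ((d * N) ^ (3 / 2 : ℝ)), ← Real.rpow_mul hdN0.le]
          norm_num
  have e3 : (d * N) ^ (18 : ℝ) * (d * N) ^ (4 * B₁) ≤ (d * N) ^ B₂ := by
    rw [← Real.rpow_add hdN0]
    exact Real.rpow_le_rpow_of_exponent_le hdN1 hB₂
  have hC₅0 : 0 < C₅ := by linarith
  rw [e1]
  calc C * ((B₀ * h) ^ 12 * (C₅ ^ B₁ * (d * N) ^ (4 * B₁)) * P) ≤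
      C * (((B₀ * C₄) ^ 12 * (d * N) ^ (18 : ℝ)) * (C₅ ^ B₁ * (d * N) ^ (4 * B₁)) * P) := by
        gcongr
    _ = C * (B₀ * C₄) ^ 12 * C₅ ^ B₁ * (((d * N) ^ (18 : ℝ) * (d * N) ^ (4 * B₁)) * P) := by
        ring
    _ ≤ C * (B₀ * C₄) ^ 12 * C₅ ^ B₁ * ((d * N) ^ B₂ * P) := by gcongr

theorem pf_LT (hBP : M_BP) (hBQ : M_BQ) (hSP : M_SP) (hAE : Pool.Agent.H29.DW.V_AE)
    (hGH : Pool.Agent.H29.DW.V_GH) (hHR : Pool.Agent.H29.TC.T_HR)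
    (hDS : Pool.Agent.H25.HK.T_DS) (hDC : Pool.Agent.H23.LC.U_DC)
    (hGE : Pool.Agent.H23.LC.U_GE) : M_LT := by
  intro n hn0
  obtain ⟨B₁, hB₁, hP⟩ := hBP n hn0
  obtain ⟨B₂, hB₂, hQ⟩ := hBQ n hn0
  obtain ⟨C₅, hC₅, hS⟩ := hSP n hn0
  obtain ⟨C₀, hC₀, hA⟩ := hAE n
  obtain ⟨C₃, hC₃, hG⟩ := hGH n
  obtain ⟨C₄, hR⟩ := hHR n 1 one_pos
  refine ⟨18 + 4 * (B₁ + B₂), by positivity, fun ε hε hε1 => ?_⟩
  obtain ⟨κ, hκ⟩ : ∃ κ : ℝ, κ = ε / 24 := ⟨_, rfl⟩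
  have hκ0 : 0 < κ := by rw [hκ]; positivity
  have hκ1 : κ ≤ 1 := by rw [hκ]; linarith
  obtain ⟨C₁, hC₁, hP⟩ := hP ε κ hε hε1 hκ0 hκ.le
  obtain ⟨C₂, hC₂, hQ⟩ := hQ ε κ hε hε1 hκ0 hκ.le
  obtain ⟨B₀, hB₀d⟩ : ∃ B₀ : ℝ, B₀ = C₀ * κ⁻¹ * max 1 C₃ := ⟨_, rfl⟩
  have hB₀ : 0 ≤ B₀ := by
    rw [hB₀d]
    have := le_max_left 1 C₃
    positivity
  obtain ⟨C₆, hC₆⟩ : ∃ C₆ : ℝ, C₆ = max 0 C₄ := ⟨_, rfl⟩
  have hC₆0 : 0 ≤ C₆ := by rw [hC₆]; exact le_max_left _ _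
  refine ⟨2 ^ 11 * (C₁ * (B₀ * C₆) ^ 12 * C₅ ^ B₁ + C₂ * (B₀ * C₆) ^ 12 * C₅ ^ B₂), ?_, ?_⟩
  · have : 0 ≤ C₅ := by linarith
    positivity
  intro K _ _ hn f hf0 Y L hL τ S hτ hcls hsp
  have hd1 : 1 ≤ dK K := one_le_discr (K := K)
  have hNf1 := one_le_Nf hf0
  have hPP : 0 ≤ PP τ ^ (2 + ε) := by
    apply Real.rpow_nonneg
    unfold PP
    exact Finset.prod_nonneg fun v _ => pow_nonneg (by linarith [hτ v]) _
  have key : ∀ q : HG K f × ℝ, ∃ v v' : ℝ → ℂ,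
      Wt κ (Real.sqrt (|(discr K : ℝ)| * Nf K f * Ci q.1.k q.1.ν q.2)) B₀ v ∧
      Wt κ (Real.sqrt (|(discr K : ℝ)| * Nf K f * Ci q.1.k q.1.ν q.2)) B₀ v' ∧
      L q.1 (1 / 2 + q.2 * I) =
        ∑' J : NZI K, q.1.ψ J.1 * v (Ideal.absNorm J.1) *
          (Ideal.absNorm J.1 : ℂ) ^ (-(q.2 * I : ℂ)) +
        ∑' J : NZI K, cd Y q.1 J.1 * v' (Ideal.absNorm J.1) *
          (Ideal.absNorm J.1 : ℂ) ^ (q.2 * I : ℂ) := by
    intro q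
    rw [hB₀d]
    exact split n κ C₀ C₃ hC₀ hκ0 hκ1 hA hG hDS hDC hGE hn hf0 Y q.1 (L q.1) (hL q.1) q.2
  choose v v' hv hv' hsplit using key
  obtain ⟨D, hD⟩ : ∃ D : ℝ, D = C₅ * (dK K * Nf K f) ^ 3 := ⟨_, rfl⟩
  have hdN : 1 ≤ dK K * Nf K f := one_le_mul_of_one_le_of_one_le hd1 hNf1
  have hD1 : 1 ≤ D := by
    rw [hD]
    exact one_le_mul_of_one_le_of_one_le hC₅ (one_le_pow₀ hdN)
  have hspc : Spc S cq (fun _ => 1) D := by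
    rw [hD]
    exact hS K hn f hf0 S hsp
  have hp1 := hP K hn f hf0 τ S B₀ D v hτ hcls hspc hD1 hB₀ (fun q _ => hv q)
  have hq1 := hQ K hn f hf0 Y τ S B₀ D v' hτ hcls hspc hD1 hB₀ (fun q _ => hv' q)
  have hreg : 0 < regulator K := regulator_pos K
  have hh0 : 0 ≤ (classNumber K : ℝ) * regulator K := by positivity
  have hR' : (classNumber K : ℝ) * regulator K ≤ C₆ * dK K ^ (3 / 2 : ℝ) := by
    refine (hR K hn).trans ?_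
    have e1 : (1 / 2 + 1 : ℝ) = 3 / 2 := by norm_num
    rw [e1, hC₆]
    unfold dK
    gcongr
    exact le_max_right _ _
  rw [hD] at hp1 hq1
  have hp2 := hp1.trans (num (B₂ := 18 + 4 * (B₁ + B₂)) hd1 hNf1 hh0 hC₁ hC₆0 hC₅ hB₀ hB₁
    hPP (by linarith) hR')
  have hq2 := hq1.trans (num (B₂ := 18 + 4 * (B₁ + B₂)) hd1 hNf1 hh0 hC₂ hC₆0 hC₅ hB₀ hB₂
    hPP (by linarith) hR')
  have hsum : ∑ q ∈ S, ‖L q.1 (1 / 2 + q.2 * I)‖ ^ 12 ≤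
      2 ^ 11 * (∑ q ∈ S, ‖∑' J : NZI K, q.1.ψ J.1 * v q (Ideal.absNorm J.1) *
          (Ideal.absNorm J.1 : ℂ) ^ (-(q.2 * I : ℂ))‖ ^ 12 +
        ∑ q ∈ S, ‖∑' J : NZI K, cd Y q.1 J.1 * v' q (Ideal.absNorm J.1) *
          (Ideal.absNorm J.1 : ℂ) ^ (q.2 * I : ℂ)‖ ^ 12) := by
    rw [← Finset.sum_add_distrib, Finset.mul_sum]
    refine Finset.sum_le_sum fun q _ => ?_
    rw [hsplit q]
    refine (pow_le_pow_left₀ (norm_nonneg _) (norm_add_le _ _) 12).trans ?_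
    exact add_pow_le (norm_nonneg _) (norm_nonneg _) 12
  calc ∑ q ∈ S, ‖L q.1 (1 / 2 + q.2 * I)‖ ^ 12 ≤ _ := hsum
    _ ≤ 2 ^ 11 * (C₁ * (B₀ * C₆) ^ 12 * C₅ ^ B₁ *
          ((dK K * Nf K f) ^ (18 + 4 * (B₁ + B₂)) * PP τ ^ (2 + ε)) +
        C₂ * (B₀ * C₆) ^ 12 * C₅ ^ B₂ *
          ((dK K * Nf K f) ^ (18 + 4 * (B₁ + B₂)) * PP τ ^ (2 + ε))) :=
        mul_le_mul_of_nonneg_left (add_le_add hp2 hq2) (by positivity)
    _ = _ := by ring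

end Pool.Agent.H19.TMB.LT
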