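import Pool.Agent.H27.TM.TargetsG
import Pool.Agent.H27.TM.TargetsL

/-! Board tm12_modules, module BL: large values in a block. -/

set_option autoImplicit false

open NumberField NumberField.InfinitePlace MeasureTheory

namespace Pool.Agent.H19.TMB.BL

open Pool.Agent.H25.HK Pool.Agent.H23.LB Pool.Agent.H23.LC Pool.Agent.H27.TM
open Pool.Agent.H29.DW (dg Rl lf wv Pos rv)
open Pool.Agent.H31.SW (EE itg FF DD PP pF dK Pf GG)

/-- powers of the logarithm -/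
theorem log_pow (n : ℕ) (hn : 0 < n) (ε : ℝ) (hε : 0 < ε) : ∃ C : ℝ, 0 ≤ C ∧
    ∀ T : ℝ, 1 ≤ T → (1 + Real.log (1 + T)) ^ n ≤ C * T ^ ε := by
  have hn0 : (0 : ℝ) < n := by exact_mod_cast hn
  obtain ⟨η, hη⟩ : ∃ η : ℝ, η = ε / n := ⟨_, rfl⟩
  have hη0 : 0 < η := by rw [hη]; positivity
  refine ⟨(1 + 2 ^ η / η) ^ n, by positivity, fun T hT => ?_⟩
  have hT0 : 0 < T := by linarith
  have h1 : Real.log (1 + T) ≤ (1 + T) ^ η / η := Real.log_le_rpow_div (by linarith) hη0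
  have h2 : (1 + T) ^ η ≤ 2 ^ η * T ^ η := by
    rw [← Real.mul_rpow (by norm_num) hT0.le]
    exact Real.rpow_le_rpow (by linarith) (by linarith) hη0.le
  have h3 : 1 ≤ T ^ η := Real.one_le_rpow hT hη0.le
  have h4 : 1 + Real.log (1 + T) ≤ (1 + 2 ^ η / η) * T ^ η := by
    have h5 : (1 + T) ^ η / η ≤ 2 ^ η * T ^ η / η := by gcongr
    calc 1 + Real.log (1 + T) ≤ T ^ η + 2 ^ η * T ^ η / η := by linarith
      _ = (1 + 2 ^ η / η) * T ^ η := by ring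
  have h6 : 0 ≤ Real.log (1 + T) := Real.log_nonneg (by linarith)
  calc (1 + Real.log (1 + T)) ^ n ≤ ((1 + 2 ^ η / η) * T ^ η) ^ n :=
        pow_le_pow_left₀ (by linarith) h4 n
    _ = (1 + 2 ^ η / η) ^ n * T ^ ε := by
        rw [mul_pow, ← Real.rpow_natCast (T ^ η), ← Real.rpow_mul hT0.le, hη]
        congr 2
        field_simp

/-- the absorption of the first term -/
theorem absorb {M V T P E C : ℝ} (hM : 0 ≤ M) (hV : 0 < V) (hT : 0 ≤ T) (hP : 0 < P)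
    (h1 : 2 * C * (E * P) ≤ V ^ 2)
    (h2 : M * V ^ 2 ≤ C * (E * P) * (M + M ^ (1 / 2 : ℝ) * (T ^ (1 / 2 : ℝ) *
      P ^ (-(3 / 2) : ℝ)))) :
    M ≤ 4 * C ^ 2 * (E ^ 2 * (T / (V ^ 4 * P))) := by
  obtain ⟨m, hm⟩ : ∃ m : ℝ, m = M ^ (1 / 2 : ℝ) := ⟨_, rfl⟩
  obtain ⟨t, ht⟩ : ∃ t : ℝ, t = T ^ (1 / 2 : ℝ) := ⟨_, rfl⟩
  obtain ⟨w, hw⟩ : ∃ w : ℝ, w = P ^ (-(1 / 2) : ℝ) := ⟨_, rfl⟩
  have hm0 : 0 ≤ m := by rw [hm]; positivity
  have ht0 : 0 ≤ t := by rw [ht]; positivity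
  have hw0 : 0 < w := by rw [hw]; positivity
  have hm2 : m ^ 2 = M := by
    rw [hm, ← Real.rpow_natCast, ← Real.rpow_mul hM]
    norm_num
  have ht2 : t ^ 2 = T := by
    rw [ht, ← Real.rpow_natCast, ← Real.rpow_mul hT]
    norm_num
  have hw2 : w ^ 2 = 1 / P := by
    rw [hw, ← Real.rpow_natCast, ← Real.rpow_mul hP.le]
    have : (-(1 / 2) * ((2 : ℕ) : ℝ) : ℝ) = -1 := by norm_num
    rw [this, Real.rpow_neg_one, one_div]
  have hPw : P * P ^ (-(3 / 2) : ℝ) = w := by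
    rw [hw]
    nth_rewrite 1 [← Real.rpow_one P]
    rw [← Real.rpow_add hP]
    norm_num
  have h3 : m ^ 2 * V ^ 2 ≤ C * (E * P) * m ^ 2 + C * E * (m * (t * w)) := by
    have e : C * (E * P) * (M + M ^ (1 / 2 : ℝ) * (T ^ (1 / 2 : ℝ) *
        P ^ (-(3 / 2) : ℝ))) = C * (E * P) * m ^ 2 + C * E * (m * (t * w)) := by
      rw [← hm, ← ht, hm2, ← hPw]
      ring
    rw [hm2]
    rw [e, hm2] at h2
    exact h2
  have h4 : C * (E * P) * m ^ 2 ≤ V ^ 2 / 2 * m ^ 2 := by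
    apply mul_le_mul_of_nonneg_right _ (sq_nonneg m)
    linarith
  rcases hm0.eq_or_lt with h5 | h5
  · have hM00 : M = 0 := by
      rw [← hm2, ← h5]
      norm_num
    rw [hM00]
    positivity
  · have h6 : m * V ^ 2 ≤ 2 * C * E * (t * w) := by
      have h7 : m * (m * V ^ 2) ≤ m * (2 * C * E * (t * w)) := by nlinarith
      exact le_of_mul_le_mul_left h7 h5
    have h8 : (m * V ^ 2) ^ 2 ≤ (2 * C * E * (t * w)) ^ 2 :=
      pow_le_pow_left₀ (by positivity) h6 2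
    have h9 : (m * V ^ 2) ^ 2 = M * V ^ 4 := by
      rw [← hm2]
      ring
    have h10 : (2 * C * E * (t * w)) ^ 2 = 4 * C ^ 2 * (E ^ 2 * (T / P)) := by
      have : (2 * C * E * (t * w)) ^ 2 = 4 * C ^ 2 * (E ^ 2 * (t ^ 2 * w ^ 2)) := by ring
      rw [this, ht2, hw2]
      ring
    rw [h9, h10] at h8
    have h11 : 4 * C ^ 2 * (E ^ 2 * (T / (V ^ 4 * P))) =
        4 * C ^ 2 * (E ^ 2 * (T / P)) / V ^ 4 := by
      field_simp
    rw [h11, le_div_iff₀ (by positivity)]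
    exact h8

/-- the collection of the terms -/
theorem collect {M R S P D δ d T ε Ca Cb Cc Cd Cn A W : ℝ} (hM : 0 ≤ M) (hR : 0 ≤ R)
    (hRM : R ≤ M) (hP : 1 ≤ P) (hD : 1 ≤ D) (hδ : 0 ≤ δ) (hd : 1 ≤ d) (hT : 1 ≤ T)
    (hε : 0 < ε) (hCa : 0 ≤ Ca) (hCb : 0 ≤ Cb) (hCc : 0 ≤ Cc) (hCd : 0 ≤ Cd) (hCn : 0 ≤ Cn)
    (hA : A ≤ Cc * T ^ (ε / 4)) (hW : 0 ≤ W)
    (h : S * (1 + δ) ≤ Ca * (D * P * (R * (Cb * (1 + δ)) + A * (Cd * (δ * (Cn * d ^ 2 *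
      T ^ (ε / 4) * (R ^ (1 / 2 : ℝ) * W + R))))))) :
    S ≤ Ca * (Cb + Cc * Cd * Cn) * (D * d ^ 2 * T ^ ε * P) * (M + M ^ (1 / 2 : ℝ) * W) := by
  have hδ1 : 0 < 1 + δ := by linarith
  have hT0 : 0 < T := by linarith
  have hd0 : 0 < d := by linarith
  have hD0 : 0 < D := by linarith
  have hP0 : 0 < P := by linarith
  obtain ⟨x, hx⟩ : ∃ x : ℝ, x = T ^ (ε / 4) := ⟨_, rfl⟩
  obtain ⟨y, hy⟩ : ∃ y : ℝ, y = M + M ^ (1 / 2 : ℝ) * W := ⟨_, rfl⟩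
  obtain ⟨e, he⟩ : ∃ e : ℝ, e = d ^ 2 * T ^ ε := ⟨_, rfl⟩
  have hx1 : 1 ≤ x := by rw [hx]; exact Real.one_le_rpow hT (by positivity)
  have hRp : R ^ (1 / 2 : ℝ) ≤ M ^ (1 / 2 : ℝ) := Real.rpow_le_rpow hR hRM (by norm_num)
  have hMp : 0 ≤ M ^ (1 / 2 : ℝ) := by positivity
  have hRp0 : 0 ≤ R ^ (1 / 2 : ℝ) := by positivity
  have hy0 : 0 ≤ y := by rw [hy]; positivity
  have hy1 : R ^ (1 / 2 : ℝ) * W + R ≤ y := by
    rw [hy]
    have := mul_le_mul_of_nonneg_right hRp hW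
    linarith
  have hMy : M ≤ y := by
    rw [hy]
    have := mul_nonneg hMp hW
    linarith
  have hxx : x * x ≤ T ^ ε := by
    rw [hx, ← Real.rpow_add hT0]
    exact Real.rpow_le_rpow_of_exponent_le hT (by linarith)
  have hTe : 1 ≤ T ^ ε := Real.one_le_rpow hT hε.le
  have hd2 : 1 ≤ d ^ 2 := one_le_pow₀ hd
  have he1 : 1 ≤ e := by rw [he]; exact one_le_mul_of_one_le_of_one_le hd2 hTe
  have hxe : d ^ 2 * (x * x) ≤ e := by
    rw [he]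
    exact mul_le_mul_of_nonneg_left hxx (by positivity)
  have k1 : R * (Cb * (1 + δ)) ≤ Cb * (1 + δ) * (e * y) := by
    have k2 : R ≤ e * y := by
      calc R ≤ y := hRM.trans hMy
        _ ≤ e * y := le_mul_of_one_le_left hy0 he1
    calc R * (Cb * (1 + δ)) = Cb * (1 + δ) * R := by ring
      _ ≤ _ := mul_le_mul_of_nonneg_left k2 (by positivity)
  have k3 : A * (Cd * (δ * (Cn * d ^ 2 * T ^ (ε / 4) * (R ^ (1 / 2 : ℝ) * W + R)))) ≤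
      Cc * Cd * Cn * (1 + δ) * (e * y) := by
    rw [← hx] at hA ⊢
    calc A * (Cd * (δ * (Cn * d ^ 2 * x * (R ^ (1 / 2 : ℝ) * W + R)))) ≤
        (Cc * x) * (Cd * ((1 + δ) * (Cn * d ^ 2 * x * y))) := by
          have hx0 : 0 < x := by linarith
          gcongr
          linarith
      _ = Cc * Cd * Cn * (1 + δ) * (d ^ 2 * (x * x) * y) := by ring
      _ ≤ Cc * Cd * Cn * (1 + δ) * (e * y) := by gcongr
  have k4 : S * (1 + δ) ≤
      (Ca * (Cb + Cc * Cd * Cn) * (D * d ^ 2 * T ^ ε * P) * y) * (1 + δ) := by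
    calc S * (1 + δ) ≤ _ := h
      _ ≤ Ca * (D * P * (Cb * (1 + δ) * (e * y) + Cc * Cd * Cn * (1 + δ) * (e * y))) := by
          gcongr
      _ = _ := by rw [he]; ring
  rw [← hy]
  exact le_of_mul_le_mul_right k4 hδ1

theorem one_le_PP {K : Type} [Field K] [NumberField K] {τ : InfinitePlace K → ℝ}
    (h : ∀ v, 1 ≤ τ v) : 1 ≤ PP τ := by
  unfold PP
  exact Finset.prod_induction _ (fun x => 1 ≤ x)
    (fun a b ha hb => one_le_mul_of_one_le_of_one_le ha hb) le_rfl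
    (fun v _ => one_le_pow₀ (h v))

theorem spc_mono {K : Type} [Field K] [NumberField K] {ι : Type} {J J' : Finset ι}
    (h : J' ⊆ J) {c : ι → InfinitePlace K → ℂ} {G : InfinitePlace K → ℝ} {D : ℝ}
    (hJ : Spc J c G D) : Spc J' c G D := by
  intro c₀
  refine le_trans ?_ (hJ c₀)
  exact_mod_cast Finset.card_le_card (Finset.filter_subset_filter _ h)

theorem pf_BL (hRK : M_RK) (hMJ : M_MJ) (hMQ : M_MQ) (hDY : M_DY) (hOC : M_OC)
    (hRP : M_RP) : M_BL := by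
  classical
  intro n ε p hn hε hp
  obtain ⟨q, hq, hpq⟩ := hRK p hp
  obtain ⟨Φ, Ψ, C₀, hC₀, hΦ⟩ := hMJ
  obtain ⟨Ca, hCa, hMQ⟩ := hMQ n p q Φ Ψ C₀ hn hp hq hpq hC₀ hΦ
  obtain ⟨Cb, hCb, hDY⟩ := hDY n q Ψ hn hq hΦ.psi
  obtain ⟨Cl, hCl, hlog⟩ := log_pow n hn (ε / 4) (by positivity)
  obtain ⟨Cd, hCd, hOC⟩ := hOC n (ε / 4) q Ψ hn (by positivity) hq hΦ.psi
  obtain ⟨Ce, hCe⟩ : ∃ Ce : ℝ, Ce = Ca * (Cb + Cb * Cl * Cd * 9 ^ n) := ⟨_, rfl⟩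
  have hCe0 : 0 ≤ Ce := by rw [hCe]; positivity
  refine ⟨max 1 (max (2 * Ce) (4 * Ce ^ 2)), le_max_left _ _, ?_⟩
  intro K _ _ hK L y ω r G τ ι J c D V hL hω hG hcls hblk hspc hD hDT hV hCV hlarge
  have hCe1 : 2 * Ce ≤ max 1 (max (2 * Ce) (4 * Ce ^ 2)) :=
    (le_max_left _ _).trans (le_max_right _ _)
  have hCe2 : 4 * Ce ^ 2 ≤ max 1 (max (2 * Ce) (4 * Ce ^ 2)) :=
    (le_max_right _ _).trans (le_max_right _ _)
  have hG1 : ∀ v, 1 ≤ G v := fun v => (hG v).1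
  have hP1 : 1 ≤ PP G := one_le_PP hG1
  have hτ1 : ∀ v, 1 ≤ τ v := fun v => (one_le_pow₀ (hG1 v)).trans (hG v).2
  have hT1 : 1 ≤ PP τ := one_le_PP hτ1
  have hd1 : 1 ≤ dK K := by
    unfold dK
    have h : (1 : ℤ) ≤ |discr K| := Int.one_le_abs (discr_ne_zero K)
    have h2 : ((1 : ℤ) : ℝ) ≤ ((|discr K| : ℤ) : ℝ) := by exact_mod_cast h
    simpa using h2
  have hδ0 : 0 ≤ DD L y := by
    unfold DD
    have : (0 : ℝ) ≤ (FractionalIdeal.absNorm L : ℝ) := by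
      exact_mod_cast FractionalIdeal.absNorm_nonneg L
    positivity
  obtain ⟨I, ρ, hIJ, hρ, hspI⟩ := hRP n K hK ι J c G (fun v => by linarith [hG1 v])
    (fun j hj v => (hcls j hj).real v)
  obtain ⟨A, hA1, hA2, hA3⟩ := hDY K hK L y ω r G hL hω hG1
  have hA : (A.card : ℝ) ≤ Cb * Cl * PP τ ^ (ε / 4) := by
    have h1 : (1 + Real.log (1 + DD L y)) ^ n ≤ (1 + Real.log (1 + PP τ)) ^ n := by
      have h2 : 0 ≤ Real.log (1 + DD L y) := Real.log_nonneg (by linarith)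
      have h3 : Real.log (1 + DD L y) ≤ Real.log (1 + PP τ) :=
        Real.log_le_log (by linarith) (by linarith)
      exact pow_le_pow_left₀ (by linarith) (by linarith) n
    calc (A.card : ℝ) ≤ Cb * (1 + Real.log (1 + DD L y)) ^ n := hA1
      _ ≤ Cb * (Cl * PP τ ^ (ε / 4)) :=
          mul_le_mul_of_nonneg_left (h1.trans (hlog _ hT1)) hCb
      _ = _ := by ring
  -- the mean square
  have hsum : ∑ j ∈ J, ‖SS p L y ω r (c j)‖ ^ 2 ≤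
      ∑ i ∈ I, Ca * (D * PP G * ‖MM q Ψ L y ω r G (c i)‖) := by
    rw [← Finset.sum_fiberwise_of_maps_to (fun j hj => (hρ j hj).1)]
    refine Finset.sum_le_sum fun i hi => ?_
    refine hMQ K hK L y ω r ι (J.filter fun j => ρ j = i) c (c i) G D hL hω hG1
      (fun v => (hcls i (hIJ hi)).real v) (fun j hj v => ?_)
      (spc_mono (Finset.filter_subset _ _) hspc)
    rw [Finset.mem_filter] at hj
    refine ⟨(hcls j hj.1).real v, ?_⟩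
    have := (hρ j hj.1).2 v
    rw [hj.2] at this
    exact this
  have hOD : ∀ α ∈ A, ∑ i ∈ I, ‖OD q Ψ L y ω r G α (c i)‖ ≤
      Cd * (DD L y * (9 ^ n * dK K ^ 2 * PP τ ^ (ε / 4) * ((I.card : ℝ) ^ (1 / 2 : ℝ) *
        (PP τ ^ (1 / 2 : ℝ) * PP G ^ (-(3 / 2) : ℝ)) + I.card))) := by
    intro α hα
    exact hOC K hK L y ω r G α τ ι I c (9 ^ n) hL hω
      (fun v => ⟨hG1 v, (hA2 α hα v).1, (hA2 α hα v).2.1, (hA2 α hα v).2.2, (hG v).2⟩)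
      (fun i hi => hcls i (hIJ hi)) (fun i hi j hj v => hblk i (hIJ hi) j (hIJ hj) v)
      hspI (one_le_pow₀ (by norm_num)) hDT
  have hMM : ∑ i ∈ I, ‖MM q Ψ L y ω r G (c i)‖ ≤ (I.card : ℝ) * (Cb * (1 + DD L y)) +
      (A.card : ℝ) * (Cd * (DD L y * (9 ^ n * dK K ^ 2 * PP τ ^ (ε / 4) *
        ((I.card : ℝ) ^ (1 / 2 : ℝ) *
        (PP τ ^ (1 / 2 : ℝ) * PP G ^ (-(3 / 2) : ℝ)) + I.card)))) := by
    calc ∑ i ∈ I, ‖MM q Ψ L y ω r G (c i)‖ ≤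
        ∑ i ∈ I, (Cb * (1 + DD L y) + ∑ α ∈ A, ‖OD q Ψ L y ω r G α (c i)‖) :=
          Finset.sum_le_sum fun i _ => hA3 (c i)
      _ = (I.card : ℝ) * (Cb * (1 + DD L y)) +
          ∑ α ∈ A, ∑ i ∈ I, ‖OD q Ψ L y ω r G α (c i)‖ := by
          rw [Finset.sum_add_distrib, Finset.sum_const, nsmul_eq_mul, Finset.sum_comm]
      _ ≤ _ := by
          gcongr
          refine (Finset.sum_le_sum hOD).trans ?_
          rw [Finset.sum_const, nsmul_eq_mul]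
  have hmain : ((J.card : ℝ) * V ^ 2) * (1 + DD L y) ≤
      Ca * (D * PP G * ((I.card : ℝ) * (Cb * (1 + DD L y)) +
      (A.card : ℝ) * (Cd * (DD L y * (9 ^ n * dK K ^ 2 * PP τ ^ (ε / 4) *
        ((I.card : ℝ) ^ (1 / 2 : ℝ) *
        (PP τ ^ (1 / 2 : ℝ) * PP G ^ (-(3 / 2) : ℝ)) + I.card)))))) := by
    calc ((J.card : ℝ) * V ^ 2) * (1 + DD L y) = ∑ _j ∈ J, V ^ 2 * (1 + DD L y) := by
          rw [Finset.sum_const, nsmul_eq_mul]
          ring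
      _ ≤ ∑ j ∈ J, ‖SS p L y ω r (c j)‖ ^ 2 := Finset.sum_le_sum hlarge
      _ ≤ ∑ i ∈ I, Ca * (D * PP G * ‖MM q Ψ L y ω r G (c i)‖) := hsum
      _ = Ca * (D * PP G * ∑ i ∈ I, ‖MM q Ψ L y ω r G (c i)‖) := by
          rw [Finset.mul_sum, Finset.mul_sum]
      _ ≤ _ := by gcongr
  have hRM : (I.card : ℝ) ≤ (J.card : ℝ) := by exact_mod_cast Finset.card_le_card hIJ
  have hcol := collect (M := (J.card : ℝ)) (Cn := 9 ^ n)
    (W := PP τ ^ (1 / 2 : ℝ) * PP G ^ (-(3 / 2) : ℝ)) (Nat.cast_nonneg _) (Nat.cast_nonneg _)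
    hRM hP1 hD hδ0 hd1 hT1 hε hCa hCb (mul_nonneg hCb hCl) hCd (by positivity)
    hA (by positivity) hmain
  rw [← hCe] at hcol
  have hE0 : 0 ≤ D * dK K ^ 2 * PP τ ^ ε := by positivity
  have hfin := absorb (Nat.cast_nonneg _) hV (by linarith : (0 : ℝ) ≤ PP τ)
    (by linarith : 0 < PP G)
    (le_trans (mul_le_mul_of_nonneg_right hCe1 (by positivity)) hCV) hcol
  refine hfin.trans (mul_le_mul_of_nonneg_right hCe2 (by positivity))

end Pool.Agent.H19.TMB.BL
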