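import Pool.Agent.H27.TM.TargetsG

/-! Board tm12_modules, module TC: the trivial bound for the number of the frequencies. -/

set_option autoImplicit false

open NumberField NumberField.InfinitePlace

namespace Pool.Agent.H19.TMB.TC

open Pool.Agent.H27.TM
open Pool.Agent.H29.DW (Rl rv)
open Pool.Agent.H31.SW (PP)

theorem PP_const {K : Type} [Field K] [NumberField K] (x : ℝ) :
    PP (fun _ : InfinitePlace K => x) = x ^ Module.finrank ℚ K := by
  unfold PP
  rw [Finset.prod_pow_eq_pow_sum, InfinitePlace.sum_mult_eq]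

theorem pf_TC (hCL : M_CL) : M_TC := by
  classical
  intro n hn
  obtain ⟨C, hC, hCL⟩ := hCL n hn
  have h2n : (1 : ℝ) ≤ 2 ^ n := one_le_pow₀ (by norm_num)
  refine ⟨C * 2 ^ n, by nlinarith, ?_⟩
  intro K _ _ hK ι J c τ D hτ hJ hS
  obtain ⟨bl, h1, h2⟩ := hCL K hK ι J c τ (fun _ => 1 / 2)
    (fun v => ⟨by norm_num, by linarith [hτ v]⟩)
    (fun j hj v => ⟨(hJ j hj).real v, by linarith [(hJ j hj).upp v]⟩)
  have hD : 0 ≤ D := le_trans (Nat.cast_nonneg _) (hS (fun _ => 0))
  have h3 : ∀ b ∈ J.image bl, ((J.filter fun j => bl j = b).card : ℝ) ≤ D := by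
    intro b hb
    obtain ⟨i, hi, rfl⟩ := Finset.mem_image.1 hb
    refine le_trans ?_ (hS (c i))
    have h4 : (J.filter fun j => bl j = bl i) ⊆ J.filter fun j => ∀ v, ‖c j v - c i v‖ ≤ 1 := by
      intro j hj
      rw [Finset.mem_filter] at hj ⊢
      refine ⟨hj.1, fun v => ?_⟩
      have := h2 j hj.1 i hi hj.2 v
      linarith
    exact_mod_cast Finset.card_le_card h4
  have h5 : (J.card : ℝ) ≤ D * ((J.image bl).card : ℝ) := by
    have h6 : J.card = ∑ b ∈ J.image bl, (J.filter fun j => bl j = b).card :=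
      Finset.card_eq_sum_card_image bl J
    rw [h6]
    push_cast
    calc ∑ b ∈ J.image bl, ((J.filter fun j => bl j = b).card : ℝ) ≤
        ∑ _b ∈ J.image bl, D := Finset.sum_le_sum h3
      _ = D * ((J.image bl).card : ℝ) := by
        rw [Finset.sum_const, nsmul_eq_mul, mul_comm]
  have h7 : PP (fun _ : InfinitePlace K => (1 / 2 : ℝ)) = 1 / 2 ^ n := by
    rw [PP_const, hK]
    simp
  rw [h7] at h1
  calc (J.card : ℝ) ≤ D * ((J.image bl).card : ℝ) := h5
    _ ≤ D * (C * (PP τ / (1 / 2 ^ n))) := mul_le_mul_of_nonneg_left h1 hD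
    _ = C * 2 ^ n * (D * PP τ) := by
      field_simp

end Pool.Agent.H19.TMB.TC
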